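import Mathlib
import Pool.Agent.N728.QL.Def

set_option autoImplicit false

/-! # Project QL (helper728), task GVN (helper482): two applications of the Cauchy-Schwarz
inequality -/

namespace Pool.Agent.N482.QL

open Finset Pool.Agent.N728.QL

/-- the box -/
noncomputable def KK (X Y : ℕ) : Finset (ℤ × ℤ) := Icc (1 : ℤ) X ×ˢ Icc (1 : ℤ) Y

/-- the points of the box on a line -/
theorem line_sum {X Y A : ℕ} {C : ℤ} (hA : 0 < A) (hAC : IsCoprime (A : ℤ) C) (G : ℤ × ℤ → ℝ)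
    (hG : ∀ p, p ∉ KK X Y → G p = 0) {p : ℤ × ℤ} (hp : p ∈ KK X Y) :
    ∑ q ∈ (KK X Y).filter (fun q => A * q.2 - C * q.1 = A * p.2 - C * p.1), G q =
      ∑ t ∈ Icc (-((X / A : ℕ) : ℤ)) ((X / A : ℕ) : ℤ), G (p.1 + t * A, p.2 + t * C) := by
  classical
  have hA0 : (0 : ℤ) < A := by exact_mod_cast hA
  have hpar : ∀ q : ℤ × ℤ, A * q.2 - C * q.1 = A * p.2 - C * p.1 →
      q = (p.1 + (q.1 - p.1) / A * A, p.2 + (q.1 - p.1) / A * C) := by
    intro q hq
    have h1 : (A : ℤ) ∣ C * (q.1 - p.1) := ⟨q.2 - p.2, by linarith⟩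
    have h2 : (A : ℤ) ∣ q.1 - p.1 := hAC.dvd_of_dvd_mul_left h1
    obtain ⟨t, ht⟩ := h2
    have h3 : (q.1 - p.1) / A = t := by
      rw [ht, Int.mul_ediv_cancel_left _ hA0.ne']
    rw [h3]
    have h4 : q.2 = p.2 + t * C := by
      apply mul_left_cancel₀ hA0.ne'
      have h5 : C * (q.1 - p.1) = C * (A * t) := by rw [ht]
      linarith
    ext
    · simp only
      linarith
    · exact h4
  refine Finset.sum_of_injOn (fun q => (q.1 - p.1) / A) ?_ ?_ ?_ ?_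
  · intro q hq q' hq' h
    rw [Finset.mem_coe, Finset.mem_filter] at hq hq'
    simp only at h
    rw [hpar q hq.2, hpar q' hq'.2, h]
  · intro q hq
    rw [Finset.mem_coe, Finset.mem_filter] at hq
    have h1 := hpar q hq.2
    have h2 := hq.1
    unfold KK at h2 hp
    rw [Finset.mem_product, Finset.mem_Icc, Finset.mem_Icc] at h2 hp
    have h3 : q.1 = p.1 + (q.1 - p.1) / A * A := congrArg Prod.fst h1
    simp only [Finset.mem_coe, Finset.mem_Icc]
    have h4 : ((X / A : ℕ) : ℤ) = (X : ℤ) / A := by push_cast; rfl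
    rw [h4]
    constructor
    · rw [neg_le]
      apply Int.le_ediv_of_mul_le hA0
      nlinarith
    · apply Int.le_ediv_of_mul_le hA0
      nlinarith
  · intro t _ ht
    by_contra hne
    apply ht
    have h1 : (p.1 + t * A, p.2 + t * C) ∈ KK X Y := by
      by_contra hc
      exact hne (hG _ hc)
    refine ⟨(p.1 + t * A, p.2 + t * C), ?_, ?_⟩
    · rw [Finset.mem_coe, Finset.mem_filter]
      refine ⟨h1, ?_⟩
      simp only
      ring
    · simp only [add_sub_cancel_left]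
      exact Int.mul_ediv_cancel _ hA0.ne'
  · intro q hq
    rw [Finset.mem_filter] at hq
    conv_lhs => rw [hpar q hq.2]

/-- **One application of the Cauchy-Schwarz inequality.** -/
theorem cs {X Y A B : ℕ} {C : ℤ} (hA : 0 < A) (hAC : IsCoprime (A : ℤ) C) (G : ℤ × ℤ → ℝ)
    (hG : ∀ p, p ∉ KK X Y → G p = 0) (F : ℤ → ℝ) (hF : Adm F B) :
    (∑ p ∈ KK X Y, G p * F (A * p.2 - C * p.1)) ^ 2 ≤
      B * ∑ t ∈ Icc (-((X / A : ℕ) : ℤ)) ((X / A : ℕ) : ℤ),
        ∑ p ∈ KK X Y, G p * G (p.1 + t * A, p.2 + t * C) := by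
  classical
  set l : ℤ × ℤ → ℤ := fun p => A * p.2 - C * p.1 with hl
  set g : ℤ → ℝ := fun s => ∑ p ∈ (KK X Y).filter (fun p => l p = s), G p with hg
  set T : Finset ℤ := (KK X Y).image l with hT
  have h1 : ∑ p ∈ KK X Y, G p * F (A * p.2 - C * p.1) = ∑ s ∈ Ioc (B : ℤ) (2 * B), F s * g s := by
    have e1 : ∑ p ∈ KK X Y, G p * F (A * p.2 - C * p.1) = ∑ s ∈ T, F s * g s := by
      rw [← Finset.sum_fiberwise_of_maps_to (t := T) (g := l) fun p hp =>
        Finset.mem_image_of_mem l hp]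
      refine Finset.sum_congr rfl fun s _ => ?_
      rw [hg]
      simp only
      rw [Finset.mul_sum]
      refine Finset.sum_congr rfl fun p hp => ?_
      rw [Finset.mem_filter] at hp
      have h2 : (A : ℤ) * p.2 - C * p.1 = s := hp.2
      rw [h2, mul_comm]
    rw [e1]
    have e2 : ∀ s, s ∉ T → g s = 0 := by
      intro s hs
      rw [hg]
      simp only
      rw [Finset.filter_eq_empty_iff.2, Finset.sum_empty]
      intro p hp h2
      exact hs (Finset.mem_image.2 ⟨p, hp, h2⟩)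
    have e3 : ∀ s, s ∉ Ioc (B : ℤ) (2 * B) → F s = 0 := by
      intro s hs
      rw [Finset.mem_Ioc] at hs
      exact hF.2 s hs
    have e4 : ∑ s ∈ T, F s * g s = ∑ s ∈ T ∪ Ioc (B : ℤ) (2 * B), F s * g s := by
      apply Finset.sum_subset Finset.subset_union_left
      intro s _ hs
      rw [e2 s hs, mul_zero]
    have e5 : ∑ s ∈ Ioc (B : ℤ) (2 * B), F s * g s =
        ∑ s ∈ T ∪ Ioc (B : ℤ) (2 * B), F s * g s := by
      apply Finset.sum_subset Finset.subset_union_right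
      intro s _ hs
      rw [e3 s hs, zero_mul]
    rw [e4, e5]
  have h2 : ∑ s ∈ Ioc (B : ℤ) (2 * B), F s ^ 2 ≤ B := by
    calc ∑ s ∈ Ioc (B : ℤ) (2 * B), F s ^ 2 ≤ ∑ _s ∈ Ioc (B : ℤ) (2 * B), (1 : ℝ) := by
          refine Finset.sum_le_sum fun s _ => ?_
          rw [← sq_abs]
          exact pow_le_one₀ (abs_nonneg _) (hF.1 s)
      _ = B := by
          rw [Finset.sum_const, nsmul_eq_mul, mul_one, Int.card_Ioc]
          have : (2 * (B : ℤ) - B).toNat = B := by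
            have : 2 * (B : ℤ) - B = B := by ring
            rw [this, Int.toNat_natCast]
          rw [this]
  have h3 : ∑ s ∈ Ioc (B : ℤ) (2 * B), g s ^ 2 ≤ ∑ s ∈ T, g s ^ 2 := by
    calc ∑ s ∈ Ioc (B : ℤ) (2 * B), g s ^ 2 ≤ ∑ s ∈ T ∪ Ioc (B : ℤ) (2 * B), g s ^ 2 :=
          Finset.sum_le_sum_of_subset_of_nonneg Finset.subset_union_right fun _ _ _ => sq_nonneg _
      _ = ∑ s ∈ T, g s ^ 2 := by
          symm
          apply Finset.sum_subset Finset.subset_union_left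
          intro s _ hs
          have h4 : g s = 0 := by
            rw [hg]
            simp only
            rw [Finset.filter_eq_empty_iff.2, Finset.sum_empty]
            intro p hp h2
            exact hs (Finset.mem_image.2 ⟨p, hp, h2⟩)
          rw [h4]
          norm_num
  have h4 : ∑ s ∈ T, g s ^ 2 = ∑ t ∈ Icc (-((X / A : ℕ) : ℤ)) ((X / A : ℕ) : ℤ),
        ∑ p ∈ KK X Y, G p * G (p.1 + t * A, p.2 + t * C) := by
    rw [Finset.sum_comm]
    have e1 : ∀ p ∈ KK X Y, ∑ t ∈ Icc (-((X / A : ℕ) : ℤ)) ((X / A : ℕ) : ℤ),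
        G p * G (p.1 + t * A, p.2 + t * C) = G p * g (l p) := by
      intro p hp
      rw [← Finset.mul_sum, ← line_sum hA hAC G hG hp]
    rw [Finset.sum_congr rfl e1, ← Finset.sum_fiberwise_of_maps_to (t := T) (g := l) fun p hp =>
        Finset.mem_image_of_mem l hp]
    refine Finset.sum_congr rfl fun s _ => ?_
    have e2 : ∀ p ∈ (KK X Y).filter (fun p => l p = s), G p * g (l p) = G p * g s := by
      intro p hp
      rw [Finset.mem_filter] at hp
      rw [hp.2]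
    rw [Finset.sum_congr rfl e2, ← Finset.sum_mul, sq]
  rw [h1]
  calc (∑ s ∈ Ioc (B : ℤ) (2 * B), F s * g s) ^ 2
      ≤ (∑ s ∈ Ioc (B : ℤ) (2 * B), F s ^ 2) * ∑ s ∈ Ioc (B : ℤ) (2 * B), g s ^ 2 :=
        Finset.sum_mul_sq_le_sq_mul_sq _ _ _
    _ ≤ B * ∑ s ∈ T, g s ^ 2 :=
        mul_le_mul h2 h3 (Finset.sum_nonneg fun _ _ => sq_nonneg _) (Nat.cast_nonneg _)
    _ = _ := by rw [h4]

/-- GVN with `x y : ℤ` in the hypothesis on the support -/
def S_GVN' : Prop := ∀ (X Y B A A' : ℕ) (C C' : ℤ) (f : ℤ → ℤ → ℝ) (F1 F2 : ℤ → ℝ),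
  0 < A → 0 < A' → IsCoprime (A : ℤ) C → IsCoprime (A' : ℤ) C' → A ≤ X → A' ≤ X →
  (∀ x y : ℤ, ¬ (1 ≤ x ∧ x ≤ X ∧ 1 ≤ y ∧ y ≤ Y) → f x y = 0) → Adm F1 B → Adm F2 B →
  (∑ x ∈ Icc (1 : ℤ) X, ∑ y ∈ Icc (1 : ℤ) Y, f x y * F1 (A * y - C * x) * F2 (A' * y - C' * x)) ^ 4 ≤
    (B : ℝ) ^ 3 * (3 * X / A) *
      ∑ t ∈ Icc (-((X / A : ℕ) : ℤ)) ((X / A : ℕ) : ℤ), ∑ r ∈ Icc (-((X / A' : ℕ) : ℤ)) ((X / A' : ℕ) : ℤ),
        |∑ x ∈ Icc (1 : ℤ) X, ∑ y ∈ Icc (1 : ℤ) Y, f x y * f (x + t * A) (y + t * C) *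
          f (x + r * A') (y + r * C') * f (x + t * A + r * A') (y + t * C + r * C')|

/-- **GVN** -/
theorem t_GVN' : S_GVN' := by
  classical
  intro X Y B A A' C C' f F1 F2 hA hA' hAC hAC' hAX hAX' hf hF1 hF2
  have hK : ∀ p : ℤ × ℤ, p ∉ KK X Y → f p.1 p.2 = 0 := by
    intro p hp
    apply hf
    intro h
    apply hp
    unfold KK
    rw [Finset.mem_product, Finset.mem_Icc, Finset.mem_Icc]
    tauto
  have hsum : ∀ H : ℤ → ℤ → ℝ, ∑ x ∈ Icc (1 : ℤ) X, ∑ y ∈ Icc (1 : ℤ) Y, H x y =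
      ∑ p ∈ KK X Y, H p.1 p.2 := by
    intro H
    unfold KK
    rw [Finset.sum_product]
  simp only [hsum]
  set R := Icc (-((X / A : ℕ) : ℤ)) ((X / A : ℕ) : ℤ) with hR
  set R' := Icc (-((X / A' : ℕ) : ℤ)) ((X / A' : ℕ) : ℤ) with hR'
  -- step 1
  have h1 := cs (X := X) (Y := Y) hA hAC (fun p => f p.1 p.2 * F2 (A' * p.2 - C' * p.1))
    (fun p hp => by rw [hK p hp, zero_mul]) F1 hF1
  rw [← hR] at h1
  set S := ∑ p ∈ KK X Y, f p.1 p.2 * F1 (A * p.2 - C * p.1) * F2 (A' * p.2 - C' * p.1) with hS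
  have e1 : ∑ p ∈ KK X Y, f p.1 p.2 * F2 (A' * p.2 - C' * p.1) * F1 (A * p.2 - C * p.1) = S := by
    refine Finset.sum_congr rfl fun p _ => ?_
    ring
  rw [e1] at h1
  -- the functions of step 2
  set hh : ℤ → ℤ × ℤ → ℝ := fun t p => f p.1 p.2 * f (p.1 + t * A) (p.2 + t * C) with hhh
  set Ft : ℤ → ℤ → ℝ := fun t s => F2 s * F2 (s + t * (A' * C - C' * A)) with hFt
  set a : ℤ → ℝ := fun t => ∑ p ∈ KK X Y, hh t p * Ft t (A' * p.2 - C' * p.1) with ha
  have e2 : ∑ t ∈ R, ∑ p ∈ KK X Y, f p.1 p.2 * F2 (A' * p.2 - C' * p.1) *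
      (f (p.1 + t * A) (p.2 + t * C) * F2 (A' * (p.2 + t * C) - C' * (p.1 + t * A))) =
      ∑ t ∈ R, a t := by
    refine Finset.sum_congr rfl fun t _ => Finset.sum_congr rfl fun p _ => ?_
    have e3 : (A' : ℤ) * (p.2 + t * C) - C' * (p.1 + t * A) =
        A' * p.2 - C' * p.1 + t * (A' * C - C' * A) := by ring
    rw [e3, hhh, hFt]
    ring
  rw [e2] at h1
  have hFa : ∀ t, Adm (Ft t) B := by
    intro t
    refine ⟨fun s => ?_, fun s hs => ?_⟩
    · simp only [hFt]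
      rw [abs_mul]
      exact mul_le_one₀ (hF2.1 _) (abs_nonneg _) (hF2.1 _)
    · simp only [hFt]
      rw [hF2.2 s hs, zero_mul]
  have h2 : ∀ t, a t ^ 2 ≤ B * ∑ r ∈ R', |∑ p ∈ KK X Y, f p.1 p.2 *
      f (p.1 + t * A) (p.2 + t * C) * f (p.1 + r * A') (p.2 + r * C') *
        f (p.1 + t * A + r * A') (p.2 + t * C + r * C')| := by
    intro t
    have h3 := cs (X := X) (Y := Y) hA' hAC' (hh t)
      (fun p hp => by rw [hhh]; simp only; rw [hK p hp, zero_mul]) (Ft t) (hFa t)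
    rw [← hR'] at h3
    refine h3.trans ?_
    refine mul_le_mul_of_nonneg_left (Finset.sum_le_sum fun r _ => ?_) (Nat.cast_nonneg _)
    refine le_trans (le_of_eq ?_) (le_abs_self _)
    refine Finset.sum_congr rfl fun p _ => ?_
    rw [hhh]
    simp only
    have e4 : p.1 + r * A' + t * A = p.1 + t * A + r * A' := by ring
    have e5 : p.2 + r * C' + t * C = p.2 + t * C + r * C' := by ring
    rw [e4, e5]
    ring
  have hcard : (R.card : ℝ) ≤ 3 * X / A := by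
    have hA0 : (0 : ℝ) < A := by exact_mod_cast hA
    have h3 : R.card = 2 * (X / A) + 1 := by
      rw [hR, Int.card_Icc]
      omega
    rw [h3, le_div_iff₀ hA0]
    have h4 : (2 * (X / A) + 1) * A ≤ 3 * X := by
      have h5 := Nat.div_mul_le_self X A
      nlinarith
    exact_mod_cast h4
  have h3 : (∑ t ∈ R, a t) ^ 2 ≤ (R.card : ℝ) * ∑ t ∈ R, a t ^ 2 := by
    have := sq_sum_le_card_mul_sum_sq (s := R) (f := a)
    exact this
  calc S ^ 4 = (S ^ 2) ^ 2 := by ring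
    _ ≤ (B * ∑ t ∈ R, a t) ^ 2 := pow_le_pow_left₀ (sq_nonneg _) h1 2
    _ = (B : ℝ) ^ 2 * (∑ t ∈ R, a t) ^ 2 := by ring
    _ ≤ (B : ℝ) ^ 2 * ((R.card : ℝ) * ∑ t ∈ R, a t ^ 2) :=
        mul_le_mul_of_nonneg_left h3 (by positivity)
    _ ≤ (B : ℝ) ^ 2 * ((3 * X / A) * ∑ t ∈ R, (B * ∑ r ∈ R', |∑ p ∈ KK X Y, f p.1 p.2 *
      f (p.1 + t * A) (p.2 + t * C) * f (p.1 + r * A') (p.2 + r * C') *
        f (p.1 + t * A + r * A') (p.2 + t * C + r * C')|)) := by
        refine mul_le_mul_of_nonneg_left ?_ (by positivity)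
        exact mul_le_mul hcard (Finset.sum_le_sum fun t _ => h2 t)
          (Finset.sum_nonneg fun _ _ => sq_nonneg _) (by positivity)
    _ = _ := by
        rw [← Finset.mul_sum]
        ring

/-- **GVN**, the statement of the project -/
theorem t_GVN : S_GVN := t_GVN'

end Pool.Agent.N482.QL
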